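import Pool.Agent.AND.Wrap
import Pool.Agent.AND.Top4
import Pool.Agent.AND.LawB
import Pool.Agent.ANC.LkN
import Pool.Agent.ANE.Final

/-!
# Extended states for the Anderson model at weak disorder
-/

open MeasureTheory ProbabilityTheory Set

noncomputable section

namespace Pool.Agent.Results.MP_28b024_mp.ExtendedStates

/-- The discrete Laplacian `(Δψ)(x) = ∑_{|y-x|_1 = 1} (ψ(y) - ψ(x))`. -/
def laplacian {d : ℕ} (ψ : (Fin d → ℤ) → ℂ) (x : Fin d → ℤ) : ℂ :=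
  ∑ j : Fin d, ((ψ (x + Pi.single j 1) - ψ x) + (ψ (x - Pi.single j 1) - ψ x))

/-- `H = -Δ + v` acting on functions on `ℤ^d`. -/
def ham {d : ℕ} (v : (Fin d → ℤ) → ℝ) (ψ : (Fin d → ℤ) → ℂ) (x : Fin d → ℤ) : ℂ :=
  -laplacian ψ x + v x * ψ x

/-- `φ ∈ ℓ²(ℤ^d)` satisfies `H φ = E φ`. -/
def IsEigenvector {d : ℕ} (v : (Fin d → ℤ) → ℝ) (E : ℝ) (φ : (Fin d → ℤ) → ℂ) : Prop :=
  Memℓp φ 2 ∧ ∀ x, ham v φ x = E * φ x

/-- `ψ` belongs to the continuous spectral subspace of `H`: it is in `ℓ²(ℤ^d)` and orthogonal to all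
eigenvectors of `H`. -/
def InContinuousSubspace {d : ℕ} (v : (Fin d → ℤ) → ℝ) (ψ : (Fin d → ℤ) → ℂ) : Prop :=
  Memℓp ψ 2 ∧ ∀ (E : ℝ) (φ : (Fin d → ℤ) → ℂ), IsEigenvector v E φ → ∑' x, star (φ x) * ψ x = 0

/-- `ν` is the spectral measure of `ψ` for `H`: `⟨ψ, (H - z)⁻¹ ψ⟩ = ∫ (t - z)⁻¹ dν(t)` for all `z` in the
upper half plane. -/
def IsSpectralMeasure {d : ℕ} (v : (Fin d → ℤ) → ℝ) (ψ : (Fin d → ℤ) → ℂ) (ν : Measure ℝ) : Prop :=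
  IsFiniteMeasure ν ∧ ∀ z : ℂ, 0 < z.im → ∃ χ : (Fin d → ℤ) → ℂ, Memℓp χ 2 ∧
    (∀ x, ham v χ x - z * χ x = ψ x) ∧ ∑' x, star (ψ x) * χ x = ∫ t : ℝ, ((t : ℂ) - z)⁻¹ ∂ν

/-- The spectrum of `H` in `[a,b]` is not empty and purely continuous: `H` has no eigenvalue in `[a,b]`, and
the spectral projection of `H` onto `[a,b]`, restricted to the continuous spectral subspace, is not zero. -/
def HasPurelyContinuousSpectrumIn {d : ℕ} (v : (Fin d → ℤ) → ℝ) (a b : ℝ) : Prop :=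
  (∀ E ∈ Icc a b, ∀ φ : (Fin d → ℤ) → ℂ, IsEigenvector v E φ → φ = 0) ∧
    ∃ ψ : (Fin d → ℤ) → ℂ, InContinuousSubspace v ψ ∧
      ∃ ν : Measure ℝ, IsSpectralMeasure v ψ ν ∧ ν (Icc a b) ≠ 0

/-- `H` has no eigenvalue in `[a,b]`. -/
def NoEigenvalueIn {d : ℕ} (v : (Fin d → ℤ) → ℝ) (a b : ℝ) : Prop :=
  ∀ E ∈ Icc a b, ∀ φ : (Fin d → ℤ) → ℂ, IsEigenvector v E φ → φ = 0

/-- `μ` has a bounded density with compact support. -/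
def BoundedDensity (μ : Measure ℝ) : Prop :=
  ∃ (ρ : ℝ → ℝ) (K M : ℝ), Measurable ρ ∧ (∀ t, 0 ≤ ρ t ∧ ρ t ≤ K) ∧ (∀ t, M < |t| → ρ t = 0) ∧
    μ = (volume : Measure ℝ).withDensity (fun t => ENNReal.ofReal (ρ t))

/-- Independent random variables `ω x`, `x ∈ ℤ^d`, with the law `μ`. -/
structure IID {d : ℕ} {Ω : Type} [MeasurableSpace Ω] (P : Measure Ω) (μ : Measure ℝ)
    (ω : (Fin d → ℤ) → Ω → ℝ) : Prop where
  indep : iIndepFun ω P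
  meas : ∀ x, AEMeasurable (ω x) P
  law : ∀ x, P.map (ω x) = μ

theorem has_of_ane {d : ℕ} {v : (Fin d → ℤ) → ℝ} {a b : ℝ} (h : ANE.HasContinuousSpectrum v a b)
    (h0 : ∀ E ∈ Icc a b, ∀ φ : (Fin d → ℤ) → ℂ, ANE.IsEigen v E φ → φ = 0) :
    HasPurelyContinuousSpectrumIn v a b := by
  obtain ⟨ψ, h1, ν, h2, h3⟩ := h
  refine ⟨fun E hE φ hφ => h0 E hE φ ⟨hφ.1, hφ.2⟩, ψ, ⟨h1.1, fun E φ hφ => h1.2 E φ ⟨hφ.1, hφ.2⟩⟩, ν,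
    ⟨h2.1, fun z hz => ?_⟩, h3⟩
  obtain ⟨χ, h4, h5⟩ := h2.2 z hz
  exact ⟨χ, h4.1, h4.2, h5⟩

theorem result (d : ℕ) (hd : 3 ≤ d) (μ : Measure ℝ) [IsProbabilityMeasure μ]
    (hμ : BoundedDensity μ) (a b : ℝ) (ha : 0 < a) (hab : a < b) (hb : b < 4 * d) :
    ∃ lam0 : ℝ, 0 < lam0 ∧ ∀ (Ω : Type) [MeasurableSpace Ω] (P : Measure Ω)
      [IsProbabilityMeasure P] (ω : (Fin d → ℤ) → Ω → ℝ), IID P μ ω →
      ∀ lam : ℝ, 0 < lam → lam ≤ lam0 →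
        ∀ᵐ s ∂P, HasPurelyContinuousSpectrumIn (fun x => lam * ω x s) a b := by
  obtain ⟨ρ, K, M, hρ, h01, hM, hm⟩ := hμ
  have hG := AND.goodLaw_of_density (fun t => (h01 t).2) hM hm
  have main : ∃ lam0 : ℝ, 0 < lam0 ∧ ∀ lam : ℝ, 0 < lam → lam ≤ lam0 →
      ∀ᵐ w ∂(Helper3.Anderson.siteLaw d μ), ANE.HasContinuousSpectrum (fun x => lam * w x) a b ∧
        ∀ E ∈ Icc a b, ∀ φ : (Fin d → ℤ) → ℂ, ANE.IsEigen (fun x => lam * w x) E φ → φ = 0 := by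
    sorry
  obtain ⟨lam0, h0, h1⟩ := main
  refine ⟨lam0, h0, fun Ω _ P _ ω h lam hl hl1 => ?_⟩
  filter_upwards [AND.ae_iid h.indep h.meas h.law (h1 lam hl hl1)] with s hs
  exact has_of_ane hs.1 hs.2

end Pool.Agent.Results.MP_28b024_mp.ExtendedStates
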